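import Pool.Agent.Helper22.G4.Base

/-! # G4-C0: bookkeeping for the base polytope -/

namespace Pool.Agent.Helper58.G4

open Pool.Agent.Helper22.G4

theorem mem_opds {I : NF} {d : OpD} :
    d ∈ I.opds ↔ ∃ n, ∃ h : n < I.ops.length, d = I.opd n (I.ops[n]) := by
  unfold NF.opds
  rw [List.mem_map]
  constructor
  · rintro ⟨⟨o, n⟩, ho, rfl⟩
    rw [List.mem_zipIdx_iff_getElem?] at ho
    obtain ⟨h, h'⟩ := List.getElem?_eq_some_iff.1 ho
    exact ⟨n, h, by simp only at h'; rw [h']⟩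
  · rintro ⟨n, h, rfl⟩
    refine ⟨(I.ops[n], n), ?_, rfl⟩
    rw [List.mem_zipIdx_iff_getElem?]
    exact List.getElem?_eq_getElem h

/-- G4-C0a (the positions of the labels of an operation; `N` and all positions are even). -/
theorem NF.opd_ok {I : NF} (hI : I.OK) {d : OpD} (hd : d ∈ I.opds) :
    4 * d.n + 4 ≤ I.M ∧ 4 ≤ d.y ∧ d.y + 2 ≤ d.z ∧ d.z + 2 ≤ d.i ∧ d.i ≤ d.w ∧ d.w + 2 ≤ d.v ∧
      d.v + 2 ≤ d.x ∧ d.x + 2 ≤ I.N ∧ d.i = pos I.B ∧ d.y % 2 = 0 ∧ d.z % 2 = 0 ∧ d.i % 2 = 0 ∧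
      d.w % 2 = 0 ∧ d.v % 2 = 0 ∧ d.x % 2 = 0 := by
  obtain ⟨n, hn, rfl⟩ := mem_opds.1 hd
  obtain ⟨h1, h2, h3, h4, h5⟩ := hI.2 (I.ops[n]) (List.getElem_mem hn)
  generalize I.ops[n] = o at *
  obtain ⟨m, x, y, z⟩ := o
  simp only [NF.opd, OpD.n, OpD.y, OpD.z, OpD.i, OpD.v, OpD.w, OpD.x, NF.M, NF.N, NF.K, pos] at *
  cases m
  · simp only [Bool.false_eq_true, if_false, true_and]
    omega
  · simp only [if_true, true_and]
    have := h5 rfl
    omega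

/-- G4-C0b (operations are determined by their numbers, all numbers occur). -/
theorem NF.opds_inj {I : NF} {d e : OpD} (hd : d ∈ I.opds) (he : e ∈ I.opds) (h : d.n = e.n) :
    d = e := by
  obtain ⟨n, hn, rfl⟩ := mem_opds.1 hd
  obtain ⟨m, hm, rfl⟩ := mem_opds.1 he
  have : n = m := h
  subst this
  rfl

/-- G4-C0b -/
theorem NF.opds_exists {I : NF} {n : ℕ} (hn : n < I.ops.length) : ∃ d ∈ I.opds, d.n = n :=
  ⟨I.opd n (I.ops[n]), mem_opds.2 ⟨n, hn, rfl⟩, rfl⟩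

theorem n_lt {I : NF} {d : OpD} (hd : d ∈ I.opds) : d.n < I.ops.length := by
  obtain ⟨n, hn, rfl⟩ := mem_opds.1 hd
  exact hn

theorem NF.size {I : NF} (hI : I.OK) : 4 ≤ I.M ∧ I.M = 4 * I.ops.length ∧ 10 ≤ I.N ∧ I.N % 2 = 0 := by
  have h : 0 < I.ops.length := List.length_pos_iff.2 hI.1
  simp only [NF.M, NF.N, NF.K, true_and]
  omega

/-- G4-C0c (classification of vertices). -/
theorem NF.mem_verts {I : NF} {v : Vx} : v ∈ I.data.verts ↔ v = Vx.b1 ∨ v = Vx.b2 ∨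
    (∃ i < I.N, v = Vx.u 0 i (i + 1)) ∨ ∃ d ∈ I.opds, v ∈ OpD.verts I.N d := by
  simp only [NF.data, List.mem_cons, List.mem_append, List.mem_map, List.mem_range,
    List.mem_flatMap, eq_comm (a := v)]

theorem mem_verts_u {N a i j : ℕ} {d : OpD} : Vx.u a i j ∈ OpD.verts N d ↔
      (a = d.pa ∧ ((i = 0 ∧ j = d.z) ∨ (i = d.z ∧ j = d.x) ∨ (i = d.x ∧ j = N))) ∨
      (a = d.pb ∧ ((i = 0 ∧ j = d.y) ∨ (i = d.y ∧ j = d.i) ∨ (i = d.i ∧ j = d.x) ∨
        (i = d.x ∧ j = N))) ∨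
      (a = d.pc ∧ ((i = 0 ∧ j = d.y) ∨ (i = d.y ∧ j = d.v) ∨ (i = d.v ∧ j = N))) ∨
      (a = d.pd ∧ ((i = 0 ∧ j = d.w) ∨ (i = d.w ∧ j = N))) := by
  simp only [OpD.verts, Vx.u, Vx.p, Vx.q, List.mem_cons, Prod.mk.injEq, List.not_mem_nil, true_and,
    or_false, OfNat.zero_ne_ofNat, false_and, and_or_left, or_assoc]

theorem NF.pu_iff {I : NF} {a i j : ℕ} : I.PU a i j ↔ (a = 0 ∧ i < I.N ∧ j = i + 1) ∨
    ∃ d ∈ I.opds, (a = d.pa ∧ ((i = 0 ∧ j = d.z) ∨ (i = d.z ∧ j = d.x) ∨ (i = d.x ∧ j = I.N))) ∨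
      (a = d.pb ∧ ((i = 0 ∧ j = d.y) ∨ (i = d.y ∧ j = d.i) ∨ (i = d.i ∧ j = d.x) ∨
        (i = d.x ∧ j = I.N))) ∨
      (a = d.pc ∧ ((i = 0 ∧ j = d.y) ∨ (i = d.y ∧ j = d.v) ∨ (i = d.v ∧ j = I.N))) ∨
      (a = d.pd ∧ ((i = 0 ∧ j = d.w) ∨ (i = d.w ∧ j = I.N))) := by
  unfold NF.PU
  rw [NF.mem_verts]
  simp only [mem_verts_u]
  constructor
  · rintro (h | h | ⟨k, hk, h⟩ | h)
    · simp [Vx.u, Vx.b1] at h
    · simp [Vx.u, Vx.b2] at h
    · simp only [Vx.u, Prod.mk.injEq, true_and] at h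
      left
      omega
    · exact Or.inr h
  · rintro (⟨rfl, hi, rfl⟩ | h)
    · exact Or.inr (Or.inr (Or.inl ⟨i, hi, rfl⟩))
    · exact Or.inr (Or.inr (Or.inr h))

theorem NF.verts_cases {I : NF} {v : Vx} (hv : v ∈ I.data.verts) : v = Vx.b1 ∨ v = Vx.b2 ∨
    (∃ a i j, I.PU a i j ∧ v = Vx.u a i j) ∨ (∃ g < 3 * I.ops.length, v = Vx.p g) ∨
    ∃ g < 3 * I.ops.length, v = Vx.q g := by
  have hv' := hv
  rw [NF.mem_verts] at hv
  rcases hv with h | h | ⟨k, hk, h⟩ | ⟨d, hd, h⟩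
  · exact Or.inl h
  · exact Or.inr (Or.inl h)
  · exact Or.inr (Or.inr (Or.inl ⟨0, k, k + 1, by rw [h] at hv'; exact hv', h⟩))
  · have hn := n_lt hd
    simp only [OpD.verts, List.mem_cons, List.not_mem_nil, or_false] at h
    rcases h with h | h | h | h | h | h | h | h | h | h | h | h | h | h | h | h | h | h
    all_goals first
      | exact Or.inr (Or.inr (Or.inl ⟨_, _, _, by rw [h] at hv'; exact hv', h⟩))
      | exact Or.inr (Or.inr (Or.inr (Or.inl ⟨_, by simp only [OpD.g0, OpD.g1, OpD.g2]; omega, h⟩)))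
      | exact Or.inr (Or.inr (Or.inr (Or.inr ⟨_, by simp only [OpD.g0, OpD.g1, OpD.g2]; omega, h⟩)))

theorem NF.pu_lt {I : NF} (hI : I.OK) {a i j : ℕ} (h : I.PU a i j) : i < j ∧ j ≤ I.N ∧ a ≤ I.M := by
  rcases NF.pu_iff.1 h with h | ⟨d, hd, h⟩
  · omega
  · have := NF.opd_ok hI hd
    simp only [OpD.pa, OpD.pb, OpD.pc, OpD.pd] at h
    omega

/-- intervals of pages other than `0` are long and have even ends -/
theorem NF.pu_long {I : NF} (hI : I.OK) {a i j : ℕ} (h : I.PU a i j) (ha : a ≠ 0) :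
    i + 2 ≤ j ∧ i % 2 = 0 ∧ j % 2 = 0 := by
  have hs := NF.size hI
  rcases NF.pu_iff.1 h with h | ⟨d, hd, h⟩
  · omega
  · have := NF.opd_ok hI hd
    simp only [OpD.pa, OpD.pb, OpD.pc, OpD.pd] at h
    omega

theorem n_eq {d e : OpD} {a : ℕ} (hd : a = d.pa ∨ a = d.pb ∨ a = d.pc ∨ a = d.pd)
    (he : a = e.pa ∨ a = e.pb ∨ a = e.pc ∨ a = e.pd) : d.n = e.n := by
  simp only [OpD.pa, OpD.pb, OpD.pc, OpD.pd] at hd he
  omega

/-- two intervals of a page that overlap coincide -/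
theorem NF.pu_unique {I : NF} (hI : I.OK) {a i j k l : ℕ} (h : I.PU a i j) (h' : I.PU a k l)
    (h1 : i < l) (h2 : k < j) : i = k ∧ j = l := by
  have hs := NF.size hI
  rcases NF.pu_iff.1 h with h | ⟨d, hd, h⟩
  · rcases NF.pu_iff.1 h' with h' | ⟨e, he, h'⟩
    · omega
    · simp only [OpD.pa, OpD.pb, OpD.pc, OpD.pd] at h'
      omega
  · rcases NF.pu_iff.1 h' with h' | ⟨e, he, h'⟩
    · simp only [OpD.pa, OpD.pb, OpD.pc, OpD.pd] at h
      omega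
    · have hde : d = e := by
        apply NF.opds_inj hd he
        simp only [OpD.pa, OpD.pb, OpD.pc, OpD.pd] at h h'
        omega
      subst hde
      have hok := NF.opd_ok hI hd
      simp only [OpD.pa, OpD.pb, OpD.pc, OpD.pd] at h h'
      rcases h with ⟨ha, h⟩ | ⟨ha, h⟩ | ⟨ha, h⟩ | ⟨ha, h⟩
      · have h' : (k = 0 ∧ l = d.z) ∨ (k = d.z ∧ l = d.x) ∨ (k = d.x ∧ l = I.N) := by omega
        omega
      · have h' : (k = 0 ∧ l = d.y) ∨ (k = d.y ∧ l = d.i) ∨ (k = d.i ∧ l = d.x) ∨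
          (k = d.x ∧ l = I.N) := by omega
        omega
      · have h' : (k = 0 ∧ l = d.y) ∨ (k = d.y ∧ l = d.v) ∨ (k = d.v ∧ l = I.N) := by omega
        omega
      · have h' : (k = 0 ∧ l = d.w) ∨ (k = d.w ∧ l = I.N) := by omega
        omega

/-- the intervals cover all slopes -/
theorem NF.pu_cover {I : NF} (hI : I.OK) {a s : ℕ} (ha : a ≤ I.M) (hs : s < I.N) :
    ∃ i j, I.PU a i j ∧ i ≤ s ∧ s + 1 ≤ j := by
  rcases Nat.eq_zero_or_pos a with rfl | ha0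
  · exact ⟨s, s + 1, NF.pu_iff.2 (Or.inl ⟨rfl, hs, rfl⟩), le_rfl, le_rfl⟩
  · have hsz := NF.size hI
    obtain ⟨d, hd, hn⟩ := NF.opds_exists (I := I) (n := (a - 1) / 4) (by omega)
    have hok := NF.opd_ok hI hd
    have hc : a = d.pa ∨ a = d.pb ∨ a = d.pc ∨ a = d.pd := by
      simp only [OpD.pa, OpD.pb, OpD.pc, OpD.pd]
      omega
    have key : ∀ i j, ((a = d.pa ∧ ((i = 0 ∧ j = d.z) ∨ (i = d.z ∧ j = d.x) ∨ (i = d.x ∧ j = I.N))) ∨
      (a = d.pb ∧ ((i = 0 ∧ j = d.y) ∨ (i = d.y ∧ j = d.i) ∨ (i = d.i ∧ j = d.x) ∨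
        (i = d.x ∧ j = I.N))) ∨
      (a = d.pc ∧ ((i = 0 ∧ j = d.y) ∨ (i = d.y ∧ j = d.v) ∨ (i = d.v ∧ j = I.N))) ∨
      (a = d.pd ∧ ((i = 0 ∧ j = d.w) ∨ (i = d.w ∧ j = I.N)))) → i ≤ s → s + 1 ≤ j →
        ∃ i j, I.PU a i j ∧ i ≤ s ∧ s + 1 ≤ j :=
      fun i j h h1 h2 => ⟨i, j, NF.pu_iff.2 (Or.inr ⟨d, hd, h⟩), h1, h2⟩
    rcases hc with hc | hc | hc | hc
    · by_cases h1 : s < d.z
      · exact key 0 d.z (by simp [hc]) (by omega) (by omega)
      · by_cases h2 : s < d.x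
        · exact key d.z d.x (by simp [hc]) (by omega) (by omega)
        · exact key d.x I.N (by simp [hc]) (by omega) (by omega)
    · by_cases h1 : s < d.y
      · exact key 0 d.y (by simp [hc]) (by omega) (by omega)
      · by_cases h2 : s < d.i
        · exact key d.y d.i (by simp [hc]) (by omega) (by omega)
        · by_cases h3 : s < d.x
          · exact key d.i d.x (by simp [hc]) (by omega) (by omega)
          · exact key d.x I.N (by simp [hc]) (by omega) (by omega)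
    · by_cases h1 : s < d.y
      · exact key 0 d.y (by simp [hc]) (by omega) (by omega)
      · by_cases h2 : s < d.v
        · exact key d.y d.v (by simp [hc]) (by omega) (by omega)
        · exact key d.v I.N (by simp [hc]) (by omega) (by omega)
    · by_cases h1 : s < d.w
      · exact key 0 d.w (by simp [hc]) (by omega) (by omega)
      · exact key d.w I.N (by simp [hc]) (by omega) (by omega)

theorem NF.p_mem {I : NF} {g : ℕ} : Vx.p g ∈ I.data.verts ↔ g < 3 * I.ops.length := by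
  constructor
  · intro h
    rcases NF.verts_cases h with h | h | ⟨a, i, j, -, h⟩ | ⟨g', hg', h⟩ | ⟨g', hg', h⟩
    · simp [Vx.p, Vx.b1] at h
    · simp [Vx.p, Vx.b2] at h
    · simp [Vx.p, Vx.u] at h
    · simp only [Vx.p, Prod.mk.injEq, and_true, true_and] at h
      omega
    · simp [Vx.p, Vx.q] at h
  · intro h
    obtain ⟨d, hd, hn⟩ := NF.opds_exists (I := I) (n := g / 3) (by omega)
    rw [NF.mem_verts]
    refine Or.inr (Or.inr (Or.inr ⟨d, hd, ?_⟩))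
    simp only [OpD.verts, Vx.p, Vx.q, Vx.u, List.mem_cons, Prod.mk.injEq, OpD.g0, OpD.g1, OpD.g2,
      List.not_mem_nil, OfNat.ofNat_ne_zero, false_and, false_or, or_false, and_true, true_and]
    omega

theorem NF.q_mem {I : NF} {g : ℕ} : Vx.q g ∈ I.data.verts ↔ g < 3 * I.ops.length := by
  constructor
  · intro h
    rcases NF.verts_cases h with h | h | ⟨a, i, j, -, h⟩ | ⟨g', hg', h⟩ | ⟨g', hg', h⟩
    · simp [Vx.q, Vx.b1] at h
    · simp [Vx.q, Vx.b2] at h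
    · simp [Vx.q, Vx.u] at h
    · simp [Vx.p, Vx.q] at h
    · simp only [Vx.q, Prod.mk.injEq, and_true, true_and] at h
      omega
  · intro h
    obtain ⟨d, hd, hn⟩ := NF.opds_exists (I := I) (n := g / 3) (by omega)
    rw [NF.mem_verts]
    refine Or.inr (Or.inr (Or.inr ⟨d, hd, ?_⟩))
    simp only [OpD.verts, Vx.p, Vx.q, Vx.u, List.mem_cons, Prod.mk.injEq, OpD.g0, OpD.g1, OpD.g2,
      List.not_mem_nil, OfNat.ofNat_ne_zero, false_and, false_or, or_false, and_true, true_and]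
    omega

theorem NF.b_mem {I : NF} : Vx.b1 ∈ I.data.verts ∧ Vx.b2 ∈ I.data.verts :=
  ⟨NF.mem_verts.2 (Or.inl rfl), NF.mem_verts.2 (Or.inr (Or.inl rfl))⟩

/-- G4-C0d (facets and flats). -/
theorem NF.mem_fcodes {I : NF} {f : Fc} : f ∈ I.data.fcodes ↔ f = Fc.Q I.N 0 1 ∨
    (∃ a s, 1 ≤ a ∧ a + 1 ≤ I.M ∧ s ≤ I.N ∧ f = Fc.F I.N s a) ∨
    ∃ d ∈ I.opds, f ∈ OpD.facets I.M I.N d := by
  simp only [NF.data, List.mem_cons, List.mem_append, List.mem_map, List.mem_range,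
    List.mem_flatMap]
  refine or_congr Iff.rfl (or_congr ?_ Iff.rfl)
  constructor
  · rintro ⟨a, ha, s, hs, rfl⟩
    exact ⟨a + 1, s, by omega, by omega, by omega, rfl⟩
  · rintro ⟨a, s, h1, h2, h3, rfl⟩
    refine ⟨a - 1, by omega, s, by omega, ?_⟩
    rw [Nat.sub_add_cancel h1]

theorem NF.mem_flats {I : NF} {R : Flat Vx Fc} : R ∈ I.data.flats ↔ R = I.page0 ∨
    ∃ d ∈ I.opds, R ∈ OpD.flats I.M I.N d := by
  simp only [NF.data, List.mem_cons, List.mem_flatMap]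

theorem NF.prev_mem {I : NF} (hI : I.OK) {a s : ℕ} (ha : 1 ≤ a) (ha' : a ≤ I.M) (hs : s ≤ I.N) :
    OpD.prev I.N a s ∈ I.data.fcodes := by
  rw [NF.mem_fcodes]
  unfold OpD.prev
  by_cases h : a = 1
  · rw [if_pos h]
    exact Or.inl rfl
  · rw [if_neg h]
    exact Or.inr (Or.inl ⟨a - 1, s, by omega, by omega, hs, rfl⟩)

theorem NF.next_mem {I : NF} (hI : I.OK) {a s : ℕ} (ha : 1 ≤ a) (ha' : a ≤ I.M) (hs : s ≤ I.N) :
    OpD.next I.M I.N a s ∈ I.data.fcodes := by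
  rw [NF.mem_fcodes]
  unfold OpD.next
  by_cases h : a = I.M
  · rw [if_pos h]
    have hsz := NF.size hI
    obtain ⟨d, hd, hn⟩ := NF.opds_exists (I := I) (n := I.ops.length - 1) (by omega)
    refine Or.inr (Or.inr ⟨d, hd, ?_⟩)
    have e1 : d.pd = a := by
      simp only [OpD.pd]
      omega
    have e2 : d.nxt I.M = 0 := by
      unfold OpD.nxt
      rw [if_pos (by omega)]
    simp only [OpD.facets, e1, e2, List.mem_cons, true_or]
  · rw [if_neg h]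
    exact Or.inr (Or.inl ⟨a, s, by omega, by omega, hs, rfl⟩)

/-- incidence with the different kinds of vertices -/
theorem Fc.mem_u (f : Fc) (a i j : ℕ) : Fc.mem f (Vx.u a i j) = true ↔
    (a = f.1.1 ∨ a = f.1.2.1 ∨ a = f.1.2.2) ∧ i ≤ f.2.1.2 ∧ f.2.1.1 ≤ j := by
  simp only [Fc.mem, Vx.u, if_true, Bool.and_eq_true, Bool.or_eq_true, or_assoc]
  exact and_congr (or_congr decide_eq_true_iff (or_congr decide_eq_true_iff decide_eq_true_iff))
    (and_congr decide_eq_true_iff decide_eq_true_iff)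

theorem Fc.mem_b1 (f : Fc) : Fc.mem f Vx.b1 = f.2.2.1.2 := by
  simp [Fc.mem, Vx.b1]

theorem Fc.mem_b2 (f : Fc) : Fc.mem f Vx.b2 = f.2.2.1.1 := by
  simp [Fc.mem, Vx.b2]

theorem Fc.mem_p (f : Fc) (g : ℕ) : Fc.mem f (Vx.p g) = true ↔ f.2.2.2.1 = g + 1 := by
  simp only [Fc.mem, Vx.p, OfNat.ofNat_ne_zero, if_false, OfNat.ofNat_ne_one, Nat.reduceEqDiff,
    if_true]
  exact decide_eq_true_iff

theorem Fc.mem_q (f : Fc) (g : ℕ) : Fc.mem f (Vx.q g) = true ↔ f.2.2.2.2 = g + 1 := by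
  simp only [Fc.mem, Vx.q, OfNat.ofNat_ne_zero, if_false, OfNat.ofNat_ne_one, Nat.reduceEqDiff]
  exact decide_eq_true_iff

end Pool.Agent.Helper58.G4
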