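import Pool.Agent.Helper22.G4.Cone

/-!
# G4-P7: the even-odd rule for closed plane polygons
-/

namespace Pool.Agent.Helper58.G4

open Filter Topology

noncomputable section

/-- the cross product of `B - A` and `y - A` -/
def cr (A B y : ℝ × ℝ) : ℝ := (B.1 - A.1) * (y.2 - A.2) - (B.2 - A.2) * (y.1 - A.1)

open Classical in
/-- the contribution of the edge `A B` to the parity at `y` -/
def wt (A B y : ℝ × ℝ) : ZMod 2 :=
  if (A.1 ≤ y.1 ∧ y.1 < B.1 ∧ cr A B y < 0) ∨ (B.1 ≤ y.1 ∧ y.1 < A.1 ∧ 0 < cr A B y) then 1 else 0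

open Classical in
/-- the correction at the vertex `A` near the point `y₀` -/
def cor (y₀ A y : ℝ × ℝ) : ZMod 2 :=
  if A.1 = y₀.1 ∧ y₀.2 < A.2 ∧ A.1 ≤ y.1 then 1 else 0

theorem cont_cr (A B : ℝ × ℝ) : Continuous (cr A B) := by
  unfold cr
  fun_prop

theorem mem_segment_of_cr {A B y : ℝ × ℝ} (h1 : A.1 < B.1) (h2 : A.1 ≤ y.1) (h3 : y.1 ≤ B.1)
    (h : cr A B y = 0) : y ∈ segment ℝ A B := by
  have hpos : 0 < B.1 - A.1 := by linarith
  refine ⟨(B.1 - y.1) / (B.1 - A.1), (y.1 - A.1) / (B.1 - A.1), ?_, ?_, ?_, ?_⟩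
  · exact div_nonneg (by linarith) hpos.le
  · exact div_nonneg (by linarith) hpos.le
  · field_simp
    ring
  · unfold cr at h
    ext
    · simp
      field_simp
      ring
    · simp
      field_simp
      linarith

theorem cr_swap (A B y : ℝ × ℝ) : cr B A y = - cr A B y := by
  unfold cr
  ring

theorem cr_ne {A B y : ℝ × ℝ} (h : y ∉ segment ℝ A B)
    (h1 : (A.1 < B.1 ∧ A.1 ≤ y.1 ∧ y.1 ≤ B.1) ∨ (B.1 < A.1 ∧ B.1 ≤ y.1 ∧ y.1 ≤ A.1)) :
    cr A B y ≠ 0 := by
  intro h0
  rcases h1 with ⟨h1, h2, h3⟩ | ⟨h1, h2, h3⟩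
  · exact h (mem_segment_of_cr h1 h2 h3 h0)
  · apply h
    rw [segment_symm]
    exact mem_segment_of_cr h1 h2 h3 (by rw [cr_swap, h0, neg_zero])

/-- the corrected contribution of an edge is locally constant off the edge -/
theorem local_const (A B y₀ : ℝ × ℝ) (h : y₀ ∉ segment ℝ A B) :
    ∃ C : ZMod 2, ∀ᶠ y in 𝓝 y₀, wt A B y + cor y₀ A y + cor y₀ B y = C := by
  have c1 : Continuous (fun y : ℝ × ℝ => y.1) := continuous_fst
  have lt1 : ∀ a : ℝ, a < y₀.1 → ∀ᶠ y in 𝓝 y₀, a < y.1 := fun a ha =>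
    (c1.tendsto y₀).eventually (lt_mem_nhds ha)
  have gt1 : ∀ a : ℝ, y₀.1 < a → ∀ᶠ y in 𝓝 y₀, y.1 < a := fun a ha =>
    (c1.tendsto y₀).eventually (gt_mem_nhds ha)
  have ltc : cr A B y₀ < 0 → ∀ᶠ y in 𝓝 y₀, cr A B y < 0 := fun ha =>
    ((cont_cr A B).tendsto y₀).eventually (gt_mem_nhds ha)
  have gtc : 0 < cr A B y₀ → ∀ᶠ y in 𝓝 y₀, 0 < cr A B y := fun ha =>
    ((cont_cr A B).tendsto y₀).eventually (lt_mem_nhds ha)
  have two : (1 : ZMod 2) + 1 = 0 := by decide
  rcases lt_trichotomy A.1 y₀.1 with hA | hA | hA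
  · rcases lt_trichotomy B.1 y₀.1 with hB | hB | hB
    · refine ⟨0, ?_⟩
      filter_upwards [lt1 _ hA, lt1 _ hB] with y h1 h2
      simp [wt, cor, hA.ne, hB.ne, h1.not_gt, h2.not_gt]
    · -- A < , B =
      have hne : cr A B y₀ ≠ 0 := cr_ne h (Or.inl ⟨by linarith, hA.le, hB.ge⟩)
      have hcr : cr A B y₀ = (B.1 - A.1) * (y₀.2 - B.2) := by
        unfold cr
        rw [← hB]
        ring
      have hpos : 0 < B.1 - A.1 := by linarith
      rcases lt_trichotomy y₀.2 B.2 with hh | hh | hh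
      · have : cr A B y₀ < 0 := by
          rw [hcr]
          exact mul_neg_of_pos_of_neg hpos (by linarith)
        refine ⟨1, ?_⟩
        filter_upwards [lt1 _ hA, ltc this] with y h1 h2
        by_cases hy : B.1 ≤ y.1
        · simp [wt, cor, hA.ne, h1.not_gt, hB, hh, hB ▸ hy, h1.le, h2, not_lt.2 (hB ▸ hy)]
        · have hy' : y.1 < B.1 := not_le.1 hy
          simp [wt, cor, hA.ne, hB, hh, hB ▸ hy', h1.le, h2, hB ▸ hy]
      · exfalso
        apply hne
        rw [hcr, hh]
        ring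
      · have : 0 < cr A B y₀ := by
          rw [hcr]
          exact mul_pos hpos (by linarith)
        refine ⟨0, ?_⟩
        filter_upwards [lt1 _ hA, gtc this] with y h1 h2
        simp [wt, cor, hA.ne, h1.not_gt, hh.not_gt, h2.not_gt]
    · -- A <, B >
      have hne : cr A B y₀ ≠ 0 := cr_ne h (Or.inl ⟨by linarith, hA.le, hB.le⟩)
      rcases lt_or_gt_of_ne hne with hc | hc
      · refine ⟨1, ?_⟩
        filter_upwards [lt1 _ hA, gt1 _ hB, ltc hc] with y h1 h2 h3
        simp [wt, cor, hA.ne, hB.ne', h1.le, h2, h3]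
      · refine ⟨0, ?_⟩
        filter_upwards [lt1 _ hA, gt1 _ hB, gtc hc] with y h1 h2 h3
        simp [wt, cor, hA.ne, hB.ne', h1.not_gt, h3.not_gt]
  · rcases lt_trichotomy B.1 y₀.1 with hB | hB | hB
    · -- A =, B <
      have hne : cr A B y₀ ≠ 0 := cr_ne h (Or.inr ⟨by linarith, hB.le, hA.ge⟩)
      have hcr : cr A B y₀ = (A.1 - B.1) * (A.2 - y₀.2) := by
        unfold cr
        rw [← hA]
        ring
      have hpos : 0 < A.1 - B.1 := by linarith
      rcases lt_trichotomy y₀.2 A.2 with hh | hh | hh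
      · have : 0 < cr A B y₀ := by
          rw [hcr]
          exact mul_pos hpos (by linarith)
        refine ⟨1, ?_⟩
        filter_upwards [lt1 _ hB, gtc this] with y h1 h2
        by_cases hy : A.1 ≤ y.1
        · simp [wt, cor, hB.ne, h1.not_gt, hA, hh, hA ▸ hy, not_lt.2 (hA ▸ hy)]
        · have hy' : y.1 < A.1 := not_le.1 hy
          simp [wt, cor, hB.ne, hA, hh, hA ▸ hy', h1.le, h2, hA ▸ hy]
      · exfalso
        apply hne
        rw [hcr, hh]
        ring
      · have : cr A B y₀ < 0 := by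
          rw [hcr]
          exact mul_neg_of_pos_of_neg hpos (by linarith)
        refine ⟨0, ?_⟩
        filter_upwards [lt1 _ hB, ltc this] with y h1 h2
        simp [wt, cor, hB.ne, h1.not_gt, hh.not_gt, h2.not_gt]
    · -- A =, B =
      have hAB : A.1 = B.1 := by rw [hA, hB]
      by_cases hsd : y₀.2 < A.2 ↔ y₀.2 < B.2
      · refine ⟨0, ?_⟩
        filter_upwards with y
        have hw : wt A B y = 0 := by
          unfold wt
          rw [if_neg]
          rintro (⟨h1, h2, -⟩ | ⟨h1, h2, -⟩)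
          · rw [hAB] at h1
            exact absurd h2 (not_lt.2 h1)
          · rw [hAB] at h2
            exact absurd h2 (not_lt.2 h1)
        have hcc : cor y₀ A y = cor y₀ B y := by
          simp only [cor, hAB, hsd]
        rw [hw, zero_add, hcc]
        generalize cor y₀ B y = z
        revert z
        decide
      · exfalso
        apply h
        have key : ∀ A B : ℝ × ℝ, A.1 = y₀.1 → B.1 = y₀.1 → y₀.2 < A.2 → ¬ y₀.2 < B.2 →
            y₀ ∈ segment ℝ A B := by
          intro A B hA hB h1 h2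
          have h2' := not_lt.1 h2
          have hpos : 0 < A.2 - B.2 := by linarith
          refine ⟨(y₀.2 - B.2) / (A.2 - B.2), (A.2 - y₀.2) / (A.2 - B.2), ?_, ?_, ?_, ?_⟩
          · exact div_nonneg (by linarith) hpos.le
          · exact div_nonneg (by linarith) hpos.le
          · field_simp
            ring
          · ext
            · simp [hA, hB]
              field_simp
              ring
            · simp
              field_simp
              ring
        by_cases h1 : y₀.2 < A.2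
        · have h2 : ¬ y₀.2 < B.2 := fun h2 => hsd ⟨fun _ => h2, fun _ => h1⟩
          exact key A B hA hB h1 h2
        · have h2 : y₀.2 < B.2 := by
            by_contra h2
            exact hsd ⟨fun h => absurd h h1, fun h => absurd h h2⟩
          rw [segment_symm]
          exact key B A hB hA h2 h1
    · -- A =, B >
      have hne : cr A B y₀ ≠ 0 := cr_ne h (Or.inl ⟨by linarith, hA.le, hB.le⟩)
      have hcr : cr A B y₀ = (B.1 - A.1) * (y₀.2 - A.2) := by
        unfold cr
        rw [← hA]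
        ring
      have hpos : 0 < B.1 - A.1 := by linarith
      rcases lt_trichotomy y₀.2 A.2 with hh | hh | hh
      · have : cr A B y₀ < 0 := by
          rw [hcr]
          exact mul_neg_of_pos_of_neg hpos (by linarith)
        refine ⟨0, ?_⟩
        filter_upwards [gt1 _ hB, ltc this] with y h1 h2
        by_cases hy : A.1 ≤ y.1
        · simp [wt, cor, hB.ne', h1, hA, hh, hA ▸ hy, h2, two]
        · have hy' : y.1 < A.1 := not_le.1 hy
          simp [wt, cor, hB.ne', hA, hh, hA ▸ hy', h2, hA ▸ hy, h1.not_ge]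
      · exfalso
        apply hne
        rw [hcr, hh]
        ring
      · have : 0 < cr A B y₀ := by
          rw [hcr]
          exact mul_pos hpos (by linarith)
        refine ⟨0, ?_⟩
        filter_upwards [gt1 _ hB, gtc this] with y h1 h2
        simp [wt, cor, hB.ne', h1.not_ge, hh.not_gt, h2.not_gt]
  · rcases lt_trichotomy B.1 y₀.1 with hB | hB | hB
    · -- A >, B <
      have hne : cr A B y₀ ≠ 0 := cr_ne h (Or.inr ⟨by linarith, hB.le, hA.le⟩)
      rcases lt_or_gt_of_ne hne with hc | hc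
      · refine ⟨0, ?_⟩
        filter_upwards [gt1 _ hA, lt1 _ hB, ltc hc] with y h1 h2 h3
        simp [wt, cor, hA.ne', hB.ne, h1.not_ge, h3.not_gt]
      · refine ⟨1, ?_⟩
        filter_upwards [gt1 _ hA, lt1 _ hB, gtc hc] with y h1 h2 h3
        simp [wt, cor, hA.ne', hB.ne, h1, h2.le, h3]
    · -- A >, B =
      have hne : cr A B y₀ ≠ 0 := cr_ne h (Or.inr ⟨by linarith, hB.le, hA.le⟩)
      have hcr : cr A B y₀ = (A.1 - B.1) * (B.2 - y₀.2) := by
        unfold cr
        rw [← hB]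
        ring
      have hpos : 0 < A.1 - B.1 := by linarith
      rcases lt_trichotomy y₀.2 B.2 with hh | hh | hh
      · have : 0 < cr A B y₀ := by
          rw [hcr]
          exact mul_pos hpos (by linarith)
        refine ⟨0, ?_⟩
        filter_upwards [gt1 _ hA, gtc this] with y h1 h2
        by_cases hy : B.1 ≤ y.1
        · simp [wt, cor, hA.ne', h1, hB, hh, hB ▸ hy, h2, two, h1.not_ge]
        · have hy' : y.1 < B.1 := not_le.1 hy
          simp [wt, cor, hA.ne', hB, hh, hB ▸ hy', h2, hB ▸ hy, h1.not_ge]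
      · exfalso
        apply hne
        rw [hcr, hh]
        ring
      · have : cr A B y₀ < 0 := by
          rw [hcr]
          exact mul_neg_of_pos_of_neg hpos (by linarith)
        refine ⟨0, ?_⟩
        filter_upwards [gt1 _ hA, ltc this] with y h1 h2
        simp [wt, cor, hA.ne', h1.not_ge, hh.not_gt, h2.not_gt]
    · refine ⟨0, ?_⟩
      filter_upwards [gt1 _ hA, gt1 _ hB] with y h1 h2
      simp [wt, cor, hA.ne', hB.ne', h1.not_ge, h2.not_ge]

variable {n : ℕ} [NeZero n]

/-- the sum of all contributions -/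
def tot (P : Fin n → ℝ × ℝ) (y : ℝ × ℝ) : ZMod 2 := ∑ i, wt (P i) (P (i + 1)) y

theorem sum_cor (P : Fin n → ℝ × ℝ) (y₀ y : ℝ × ℝ) :
    ∑ i, (cor y₀ (P i) y + cor y₀ (P (i + 1)) y) = 0 := by
  rw [Finset.sum_add_distrib]
  have : ∑ i : Fin n, cor y₀ (P (i + 1)) y = ∑ i : Fin n, cor y₀ (P i) y :=
    Equiv.sum_comp (Equiv.addRight (1 : Fin n)) (fun i => cor y₀ (P i) y)
  rw [this]
  generalize (∑ i : Fin n, cor y₀ (P i) y) = z
  revert z
  decide

theorem tot_eventually (P : Fin n → ℝ × ℝ) (y₀ : ℝ × ℝ)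
    (h : ∀ i, y₀ ∉ segment ℝ (P i) (P (i + 1))) :
    ∀ᶠ y in 𝓝 y₀, tot P y = tot P y₀ := by
  choose C hC using fun i => local_const (P i) (P (i + 1)) y₀ (h i)
  have hall : ∀ᶠ y in 𝓝 y₀, ∀ i, wt (P i) (P (i + 1)) y + cor y₀ (P i) y +
      cor y₀ (P (i + 1)) y = C i := eventually_all.2 hC
  have key : ∀ᶠ y in 𝓝 y₀, tot P y = ∑ i, C i := by
    filter_upwards [hall] with y hy
    have := sum_cor P y₀ y
    unfold tot
    calc ∑ i, wt (P i) (P (i + 1)) y
        = ∑ i, wt (P i) (P (i + 1)) y + ∑ i, (cor y₀ (P i) y + cor y₀ (P (i + 1)) y) := by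
          rw [this, add_zero]
      _ = ∑ i, C i := by
          rw [← Finset.sum_add_distrib]
          refine Finset.sum_congr rfl fun i _ => ?_
          rw [← hy i]
          ring
  filter_upwards [key] with y hy
  rw [hy, key.self_of_nhds]

theorem tot_segment (P : Fin n → ℝ × ℝ) (y y' : ℝ × ℝ)
    (h : ∀ i, Disjoint (segment ℝ y y') (segment ℝ (P i) (P (i + 1)))) :
    tot P y = tot P y' := by
  have hpc : IsPreconnected (segment ℝ y y') := (convex_segment y y').isPreconnected
  have hloc : ∀ z ∈ segment ℝ y y', ∀ᶠ w in 𝓝[segment ℝ y y'] z, tot P w = tot P z := by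
    intro z hz
    exact (tot_eventually P z fun i hi => Set.disjoint_left.1 (h i) hz hi).filter_mono
      nhdsWithin_le_nhds
  have hcont : ContinuousOn (tot P) (segment ℝ y y') := by
    intro z hz
    have h1 : (tot P) =ᶠ[𝓝[segment ℝ y y'] z] (fun _ => tot P z) := hloc z hz
    exact continuousWithinAt_const.congr_of_eventuallyEq h1 rfl
  exact hpc.constant hcont (left_mem_segment ℝ y y') (right_mem_segment ℝ y y')

theorem cr_line (A B y₀ u : ℝ × ℝ) (t : ℝ) (h : cr A B y₀ = 0) :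
    cr A B (y₀ + t • (u - y₀)) = t * cr A B u := by
  unfold cr at *
  simp only [Prod.fst_add, Prod.snd_add, Prod.smul_fst, Prod.smul_snd, Prod.fst_sub, Prod.snd_sub,
    smul_eq_mul]
  linear_combination (1 - t) * h

/-- G4-P7 (parity of a closed plane polygon). The polygon has the vertices `P i` and the edges
from `P i` to `P (i + 1)`. There is a two-valued function on the plane which is constant along
segments that do not meet the polygon, and takes different values on the two sides of the edge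
`i₀`. -/
theorem parity {n : ℕ} [NeZero n] (P : Fin n → ℝ × ℝ) (i₀ : Fin n)
    (hne : (P i₀).1 ≠ (P (i₀ + 1)).1) :
    ∃ W : ℝ × ℝ → Bool,
      (∀ y y' : ℝ × ℝ, (∀ i, Disjoint (segment ℝ y y') (segment ℝ (P i) (P (i + 1)))) →
        W y = W y') ∧
      ∀ y₀ u u' : ℝ × ℝ, y₀ ∈ openSegment ℝ (P i₀) (P (i₀ + 1)) →
        (∀ i, i ≠ i₀ → y₀ ∉ segment ℝ (P i) (P (i + 1))) →
        0 < ((P (i₀ + 1)).1 - (P i₀).1) * (u.2 - (P i₀).2) -
          ((P (i₀ + 1)).2 - (P i₀).2) * (u.1 - (P i₀).1) →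
        ((P (i₀ + 1)).1 - (P i₀).1) * (u'.2 - (P i₀).2) -
          ((P (i₀ + 1)).2 - (P i₀).2) * (u'.1 - (P i₀).1) < 0 →
        (∀ t : ℝ, 0 < t → t ≤ 1 → ∀ i, y₀ + t • (u - y₀) ∉ segment ℝ (P i) (P (i + 1))) →
        (∀ t : ℝ, 0 < t → t ≤ 1 → ∀ i, y₀ + t • (u' - y₀) ∉ segment ℝ (P i) (P (i + 1))) →
        W u ≠ W u' := by
  classical
  refine ⟨fun y => decide (tot P y = 1), fun y y' h => by simp [tot_segment P y y' h], ?_⟩
  intro y₀ u u' hy₀ hoth hu hu' hs hs'
  set A := P i₀ with hA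
  set B := P (i₀ + 1) with hB
  have hcu : 0 < cr A B u := hu
  have hcu' : cr A B u' < 0 := hu'
  -- the point on the edge
  obtain ⟨a, b, ha, hb, hab, hy⟩ := hy₀
  have hcr0 : cr A B y₀ = 0 := by
    rw [← hy]
    unfold cr
    have hb' : b = 1 - a := by linarith
    subst hb'
    simp
    ring
  have hx : y₀.1 = a * A.1 + b * B.1 := by rw [← hy]; simp
  have hbetween : (A.1 < y₀.1 ∧ y₀.1 < B.1) ∨ (B.1 < y₀.1 ∧ y₀.1 < A.1) := by
    have hb' : b = 1 - a := by linarith
    rcases lt_or_gt_of_ne hne with h | h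
    · left
      constructor
      · rw [hx, hb']; nlinarith [mul_pos hb (sub_pos.2 h)]
      · rw [hx, hb']; nlinarith [mul_pos ha (sub_pos.2 h)]
    · right
      have h' : B.1 < A.1 := h
      constructor
      · rw [hx, hb']; nlinarith [mul_pos ha (sub_pos.2 h')]
      · rw [hx, hb']; nlinarith [mul_pos hb (sub_pos.2 h')]
  -- local behaviour
  choose C hC using fun i : {i : Fin n // i ≠ i₀} =>
    local_const (P i) (P (i + 1)) y₀ (hoth i i.2)
  have hall : ∀ᶠ y in 𝓝 y₀, ∀ i : {i : Fin n // i ≠ i₀}, wt (P i) (P (i + 1)) y + cor y₀ (P i) y +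
      cor y₀ (P (i + 1)) y = C i := eventually_all.2 hC
  have c1 : Continuous (fun y : ℝ × ℝ => y.1) := continuous_fst
  have lt1 : ∀ a : ℝ, a < y₀.1 → ∀ᶠ y in 𝓝 y₀, a < y.1 := fun a ha =>
    (c1.tendsto y₀).eventually (lt_mem_nhds ha)
  have gt1 : ∀ a : ℝ, y₀.1 < a → ∀ᶠ y in 𝓝 y₀, y.1 < a := fun a ha =>
    (c1.tendsto y₀).eventually (gt_mem_nhds ha)
  have hedge : ∀ᶠ y in 𝓝 y₀, (A.1 < y.1 ∧ y.1 < B.1) ∨ (B.1 < y.1 ∧ y.1 < A.1) := by
    rcases hbetween with ⟨h1, h2⟩ | ⟨h1, h2⟩
    · filter_upwards [lt1 _ h1, gt1 _ h2] with y h3 h4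
      exact Or.inl ⟨h3, h4⟩
    · filter_upwards [lt1 _ h1, gt1 _ h2] with y h3 h4
      exact Or.inr ⟨h3, h4⟩
  have hform : ∀ᶠ y in 𝓝 y₀, tot P y = wt A B y + ∑ i : {i : Fin n // i ≠ i₀}, C i := by
    filter_upwards [hall] with y hy
    have hsum := sum_cor P y₀ y
    have hA0 : cor y₀ A y = 0 := by
      unfold cor
      rw [if_neg]
      rintro ⟨h1, -⟩
      rcases hbetween with h | h <;> linarith [h.1, h.2]
    have hB0 : cor y₀ B y = 0 := by
      unfold cor
      rw [if_neg]
      rintro ⟨h1, -⟩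
      rcases hbetween with h | h <;> linarith [h.1, h.2]
    have e1 : tot P y = ∑ i, (wt (P i) (P (i + 1)) y + (cor y₀ (P i) y + cor y₀ (P (i + 1)) y)) := by
      rw [Finset.sum_add_distrib, hsum, add_zero]
      rfl
    rw [e1, ← Finset.add_sum_erase _ _ (Finset.mem_univ i₀), ← hA, ← hB, hA0, hB0, add_zero,
      add_zero]
    congr 1
    have e2 : ∀ i ∈ Finset.univ.erase i₀, wt (P i) (P (i + 1)) y + (cor y₀ (P i) y +
        cor y₀ (P (i + 1)) y) = if h : i ≠ i₀ then C ⟨i, h⟩ else 0 := by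
      intro i hi
      have hi' := (Finset.mem_erase.1 hi).1
      rw [dif_pos hi', ← hy ⟨i, hi'⟩]
      ring
    rw [Finset.sum_congr rfl e2]
    rw [Finset.sum_subtype (Finset.univ.erase i₀) (p := fun i => i ≠ i₀) (by simp)
      (fun i => if h : i ≠ i₀ then C ⟨i, h⟩ else 0)]
    refine Finset.sum_congr rfl fun i _ => ?_
    rw [dif_pos i.2]
  -- points near `y₀`
  have htend : ∀ v : ℝ × ℝ, Tendsto (fun t : ℝ => y₀ + t • (v - y₀)) (𝓝[>] 0) (𝓝 y₀) := by
    intro v
    have hc : Continuous (fun t : ℝ => y₀ + t • (v - y₀)) := by fun_prop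
    have h0 := hc.tendsto 0
    simp only [zero_smul, add_zero] at h0
    exact h0.mono_left nhdsWithin_le_nhds
  have hle : ∀ᶠ t : ℝ in 𝓝[>] 0, t ≤ 1 :=
    nhdsWithin_le_nhds (Iic_mem_nhds one_pos)
  have hself : ∀ᶠ t : ℝ in 𝓝[>] 0, 0 < t := self_mem_nhdsWithin
  obtain ⟨t, ht0, ht1, h1, h2, h3, h4⟩ := (hself.and (hle.and
    (((htend u).eventually hform).and (((htend u').eventually hform).and
      (((htend u).eventually hedge).and ((htend u').eventually hedge)))))).exists
  have hcru : 0 < cr A B (y₀ + t • (u - y₀)) := by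
    rw [cr_line A B y₀ u t hcr0]
    exact mul_pos ht0 hcu
  have hcru' : cr A B (y₀ + t • (u' - y₀)) < 0 := by
    rw [cr_line A B y₀ u' t hcr0]
    exact mul_neg_of_pos_of_neg ht0 hcu'
  have hseg : ∀ v : ℝ × ℝ, (∀ t : ℝ, 0 < t → t ≤ 1 → ∀ i, y₀ + t • (v - y₀) ∉
      segment ℝ (P i) (P (i + 1))) → tot P (y₀ + t • (v - y₀)) = tot P v := by
    intro v hv
    apply tot_segment
    intro i
    rw [Set.disjoint_left]
    rintro z ⟨p, q, hp, hq, hpq, rfl⟩ hz
    have hp' : p = 1 - q := by linarith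
    subst hp'
    refine hv ((1 - q) * t + q) ?_ ?_ i ?_
    · rcases hp.lt_or_eq with h | h
      · nlinarith [mul_pos h ht0]
      · rw [← h]
        linarith
    · nlinarith
    · have e : y₀ + ((1 - q) * t + q) • (v - y₀) = (1 - q) • (y₀ + t • (v - y₀)) + q • v := by
        module
      rw [e]
      exact hz
  have key : tot P u ≠ tot P u' := by
    rw [← hseg u hs, ← hseg u' hs', h1, h2]
    intro he
    have he' := add_right_cancel he
    clear he h1 h2
    generalize y₀ + t • (u - y₀) = z at *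
    generalize y₀ + t • (u' - y₀) = z' at *
    rcases h3 with h3 | h3
    · have e1 : wt A B z = 0 := by
        simp [wt, h3.1.le, h3.2, hcru.not_gt, h3.1.not_gt, h3.2.not_ge]
      have e2 : wt A B z' = 1 := by
        rcases h4 with h4 | h4
        · simp [wt, h4.1.le, h4.2, hcru']
        · linarith [h3.1, h3.2, h4.1, h4.2]
      rw [e1, e2] at he'
      exact absurd he' (by decide)
    · have e1 : wt A B z = 1 := by
        simp [wt, h3.1.le, h3.2, hcru]
      have e2 : wt A B z' = 0 := by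
        rcases h4 with h4 | h4
        · linarith [h3.1, h3.2, h4.1, h4.2]
        · simp [wt, h4.1.le, h4.2, hcru'.not_gt, h4.1.not_gt, h4.2.not_ge]
      rw [e1, e2] at he'
      exact absurd he' (by decide)
  show decide (tot P u = 1) ≠ decide (tot P u' = 1)
  revert key
  generalize tot P u = a
  generalize tot P u' = b
  revert a b
  decide

end

end Pool.Agent.Helper58.G4
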