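import Pool.Agent.Helper22.G4.Real
import Pool.Agent.Helper22.G4.St.C0
import Pool.Agent.Helper22.G4.St.R4
import Pool.Agent.Helper22.G4.St.R5
import Pool.Agent.Helper22.G4.St.R8
import Pool.Agent.Helper22.G4.St.R10
import Pool.Agent.Helper22.G4.St.R11
import Pool.Agent.Helper22.G4.St.R12
import Pool.Agent.Helper22.G4.St.R13
import Pool.Agent.Helper22.G4.St.R14
import Pool.Agent.Helper22.G4.St.R15
import Pool.Agent.Helper22.G4.St.R16

/-! # G4-R17: assembly of the realization of the base polytope -/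

namespace Pool.Agent.Helper58.G4

open Submodule Pool.Agent.Helper22.G4

theorem gX_pos (g : ℕ) : 1 ≤ gX g := by
  unfold gX
  split_ifs <;> omega

theorem gY_pos (g : ℕ) : 1 ≤ gY g := by
  unfold gY
  split_ifs <;> omega

theorem b0_apply (a b : ℕ) (ha : 1 ≤ a) (hb : 1 ≤ b) (x : E5) :
    b0 a b x = fQ a b x / (a * b) := by
  have ha' : (a : ℝ) ≠ 0 := by
    have : (0 : ℝ) < a := by exact_mod_cast ha
    exact this.ne'
  have hb' : (b : ℝ) ≠ 0 := by
    have : (0 : ℝ) < b := by exact_mod_cast hb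
    exact this.ne'
  have hb0 : b ≠ 0 := by omega
  simp only [b0, fQ, if_neg hb0, lin, LinearMap.add_apply, LinearMap.smul_apply,
    LinearMap.proj_apply, smul_eq_mul]
  field_simp
  ring

theorem fQ_comm (a b : ℕ) (ha : 1 ≤ a) (hb : 1 ≤ b) : fQ a b = fQ b a := by
  have hb0 : b ≠ 0 := by omega
  have ha0 : a ≠ 0 := by omega
  simp only [fQ, if_neg hb0, if_neg ha0]
  rw [mul_comm (a : ℝ) b, add_comm (a : ℝ) b]

theorem all_valid {I : NF} (hI : I.OK) (G : Geo I) {h m : ℝ}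
    (h1 : (∀ a s, 1 ≤ a → a + 1 ≤ I.M → s ≤ I.N → G.Valid h m (Fc.F I.N s a)) ∧
      ∀ a b, Fc.Q I.N a b ∈ I.data.fcodes → G.Valid h m (Fc.Q I.N a b))
    (h2 : ∀ g < 3 * I.ops.length, ∀ s,
      Fc.G I.N (gX g) (gY g) g s ∈ I.data.fcodes → G.Valid h m (Fc.G I.N (gX g) (gY g) g s))
    (h3 : ∀ g < 3 * I.ops.length, G.Valid h m (Fc.GX I.N (gX g) g) ∧
      G.Valid h m (Fc.GY I.N (gY g) g) ∧ G.Valid h m (Fc.T0 I.M I.N g))
    {f : Fc} (hf : f ∈ I.data.fcodes) : G.Valid h m f := by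
  rcases fcodes_cases hI hf with ⟨a, b, -, rfl⟩ | ⟨a, s, ha, ha', hs, rfl⟩ | ⟨g, hg, hh⟩
  · exact h1.2 a b hf
  · exact h1.1 a s ha ha' hs
  · rcases hh with rfl | rfl | rfl | ⟨s, rfl⟩
    · exact (h3 g hg).1
    · exact (h3 g hg).2.1
    · exact (h3 g hg).2.2
    · exact h2 g hg s hf

/-- G4-R17 (assembly: strongly solvable systems have realizable base polytopes). -/
theorem real_base {I : NF} (hI : I.OK) (hs : I.Strong) :
    Realizable I.data.verts.toFinset I.data.fam := by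
  obtain ⟨G0⟩ := geo_exists hI hs
  obtain ⟨G, hF⟩ := fan_exists hI G0
  obtain ⟨h, hh0, hh1, hh2⟩ := ((Filter.eventually_gt_atTop (0 : ℝ)).and
    ((valid_F hI G hF).and (valid_G hI G))).exists
  obtain ⟨m, hm1, hm2, hm3, hm4⟩ := ((Filter.eventually_ge_atTop (1 : ℝ)).and
    (hh1.and (hh2.and (valid_GXY hI G h)))).exists
  have hval : ∀ f ∈ I.data.fcodes, G.Valid h m f := fun f hf => all_valid hI G hm2 hm3 hm4 hf
  have hN : I.N ≠ 0 := by
    have := NF.size hI
    omega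
  refine ⟨G.c h m, G.phi h m '' {f | f ∈ I.data.fcodes}, ⟨?_, ?_, ?_, ?_, ?_⟩, ?_⟩
  · exact (List.finite_toSet _).image _
  · exact c_pos hI G hh0 hm1
  · exact c_span hI G h m
  · rintro φ ⟨f, hf, rfl⟩ v hv
    exact (hval f hf v (List.mem_toFinset.1 hv)).1
  · intro x hx
    have hx' : ∀ f ∈ I.data.fcodes, 0 ≤ G.phi h m f x := fun f hf => hx _ ⟨f, hf, rfl⟩
    show InCone (G.c h m) I.data.verts.toFinset x
    by_cases hall : ∀ a < I.M, 0 ≤ fQ a (a + 1) x
    · refine book_compl hI G h m x ?_ hall ?_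
      · intro a s ha ha' hs
        have := hx' (Fc.F I.N s a) (NF.mem_fcodes.2 (Or.inr (Or.inl ⟨a, s, ha, ha', hs, rfl⟩)))
        rwa [Geo.phi_F] at this
      · have := hx' _ (QM_mem hI)
        rwa [Geo.phi_Q G h m hN] at this
    · push Not at hall
      obtain ⟨a, ha, hneg⟩ := hall
      rcases pair_cases hI (a := a) (by omega) with hmem | ⟨g, hg, hgg⟩
      · have := hx' _ hmem
        rw [Geo.phi_Q G h m hN] at this
        linarith
      · obtain ⟨m1, m2, m3⟩ := gad_mem hI hg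
        have e1 := hx' _ m1
        have e2 := hx' _ m2
        have e3 := hx' _ m3
        rw [Geo.phi_GX] at e1
        rw [Geo.phi_GY G h m hN] at e2
        rw [Geo.phi_T0 G h m hN] at e3
        refine gadget_compl hI G h hm1 hg x ?_ e1 e2 e3 ?_
        · rw [b0_apply _ _ (gX_pos g) (gY_pos g)]
          have hfq : fQ (gX g) (gY g) x ≤ 0 := by
            rcases hgg with ⟨h1, h2⟩ | ⟨h1, h2⟩
            · rw [h1, h2]
              exact hneg.le
            · rw [fQ_comm _ _ (gX_pos g) (gY_pos g), h1, h2]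
              exact hneg.le
          exact div_nonpos_of_nonpos_of_nonneg hfq (by positivity)
        · intro s b hsb
          have := hx' _ hsb
          rwa [Geo.phi_G] at this
  · ext Z
    constructor
    · rintro ⟨φ, ⟨f, hf, rfl⟩, rfl⟩
      refine ⟨f, hf, ?_⟩
      ext v
      simp only [zs, Set.mem_ofPred_eq, List.mem_toFinset]
      constructor
      · rintro ⟨h1, h2⟩
        exact ⟨h1, (hval f hf v h1).2.1 h2⟩
      · rintro ⟨h1, h2⟩
        exact ⟨h1, (hval f hf v h1).2.2 h2⟩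
    · rintro ⟨f, hf, rfl⟩
      refine ⟨G.phi h m f, ⟨f, hf, rfl⟩, ?_⟩
      ext v
      simp only [zs, Set.mem_ofPred_eq, List.mem_toFinset]
      constructor
      · rintro ⟨h1, h2⟩
        exact ⟨h1, (hval f hf v h1).2.1 h2⟩
      · rintro ⟨h1, h2⟩
        exact ⟨h1, (hval f hf v h1).2.2 h2⟩

end Pool.Agent.Helper58.G4
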