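import Pool.Agent.Helper22.G4.Base
import Pool.Agent.Helper22.G4.GenFam
import Pool.Agent.Helper22.G4.St.C0
import Pool.Agent.Helper22.G4.St.S1
import Pool.Agent.Helper22.G4.St.S4
import Pool.Agent.Helper22.G4.St.S5
import Pool.Agent.Helper22.G4.St.S6
import Pool.Agent.Helper22.G4.St.S7

/-! # G4-S8: assembly of the soundness part -/

namespace Pool.Agent.Helper58.G4

open Submodule Pool.Agent.Helper22.G4

theorem page0_mem {I : NF} {s : ℕ} (hs : s < I.N) : Vx.u 0 s (s + 1) ∈ I.page0.1 := by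
  unfold NF.page0
  simp only [List.mem_append, List.mem_map, List.mem_range, List.mem_cons, List.not_mem_nil,
    or_false]
  by_cases h : s = 0
  · subst h
    right; right; right
    rfl
  · left
    refine ⟨s - 1, by omega, ?_⟩
    have e1 : s - 1 + 1 = s := by omega
    have e2 : s - 1 + 2 = s + 1 := by omega
    rw [e1, e2]

theorem page0_b {I : NF} : Vx.b1 ∈ I.page0.1 ∧ Vx.b2 ∈ I.page0.1 := by
  unfold NF.page0
  constructor
  · simp only [List.mem_append, List.mem_cons, true_or, or_true]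
  · simp only [List.mem_append, List.mem_cons, true_or, or_true]

theorem u_ne_b1 (a i j : ℕ) : Vx.u a i j ≠ Vx.b1 := by
  simp [Vx.u, Vx.b1]

theorem u_ne_b2 (a i j : ℕ) : Vx.u a i j ≠ Vx.b2 := by
  simp [Vx.u, Vx.b2]

/-- G4-S8 (assembly: models of the forced faces are weak solutions). -/
theorem weak_of_model {I : NF} (hI : I.OK) {c : Vx → E5} (hM : I.data.Model c) : I.Weak := by
  obtain ⟨τ, h1, h2, hp⟩ := snd_tau hI hM
  set n : Vx → E5 := fun v => (τ (c v))⁻¹ • c v with hn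
  have hsz := NF.size hI
  have hpos : ∀ l < I.K, 1 ≤ pos l ∧ pos l < I.N := by
    intro l hl
    unfold pos NF.N
    omega
  refine weak_of_dirs hI (fun s => n (Vx.u 0 s (s + 1)) - n (Vx.u 0 (s - 1) s)) (c Vx.b1)
    (c Vx.b2) ?_ ?_ ?_
  · intro l hl
    obtain ⟨hl1, hl2⟩ := hpos l hl
    have e : pos l = pos l - 1 + 1 := by omega
    have hmem : Vx.u 0 (pos l - 1) (pos l) ∈ I.page0.1 := by
      have := page0_mem (I := I) (s := pos l - 1) (by omega)
      rwa [← e] at this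
    exact snd_page hI hM h1 h2 hp (NF.mem_flats.2 (Or.inl rfl)) page0_b.1 page0_b.2
      (page0_mem hl2) hmem (u_ne_b1 _ _ _) (u_ne_b2 _ _ _) (u_ne_b1 _ _ _) (u_ne_b2 _ _ _)
  · intro l hl k hk hlk
    obtain ⟨hl1, hl2⟩ := hpos l hl
    obtain ⟨hk1, hk2⟩ := hpos k hk
    rcases lt_or_gt_of_ne hlk with h | h
    · exact snd_dirs hI hM h1 h2 hp hl1 (by unfold pos; omega) hk2
    · have := snd_dirs hI hM h1 h2 hp hk1 (by unfold pos; omega : pos k < pos l) hl2
      exact LinearIndependent.pair_symm_iff.1 this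
  · intro d hd
    have hsq : ∀ {a i s j : ℕ}, OpD.squad I.M I.N a i s j ∈ OpD.flats I.M I.N d →
        ∃ r : ℝ, r ≠ 0 ∧ n (Vx.u a s j) - n (Vx.u a i s) =
          r • (n (Vx.u 0 s (s + 1)) - n (Vx.u 0 (s - 1) s)) :=
      fun hs => snd_squad hI hM h1 h2 hp hd hs
    obtain ⟨⟨g1, hg1, eg1⟩, ⟨g2, hg2, eg2⟩, ⟨g3, hg3, eg3⟩, ⟨g4, hg4, eg4⟩⟩ :=
      snd_gadgets hI hM h1 h2 hp hd n (fun v => rfl)
    obtain ⟨az, haz, eaz⟩ := hsq (a := d.pa) (i := 0) (s := d.z) (j := d.x)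
      (by simp only [OpD.flats, List.mem_cons, true_or, or_true])
    obtain ⟨b1, hb1, eb1⟩ := hsq (a := d.pb) (i := 0) (s := d.y) (j := d.i)
      (by simp only [OpD.flats, List.mem_cons, true_or, or_true])
    obtain ⟨b2, hb2, eb2⟩ := hsq (a := d.pb) (i := d.y) (s := d.i) (j := d.x)
      (by simp only [OpD.flats, List.mem_cons, true_or, or_true])
    obtain ⟨b3, hb3, eb3⟩ := hsq (a := d.pb) (i := d.i) (s := d.x) (j := I.N)
      (by simp only [OpD.flats, List.mem_cons, true_or, or_true])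
    obtain ⟨cv, hcv, ecv⟩ := hsq (a := d.pc) (i := d.y) (s := d.v) (j := I.N)
      (by simp only [OpD.flats, List.mem_cons, true_or, or_true])
    obtain ⟨dw, hdw, edw⟩ := hsq (a := d.pd) (i := 0) (s := d.w) (j := I.N)
      (by simp only [OpD.flats, List.mem_cons, true_or, or_true])
    refine ⟨b1, b2, g1 * az, b3, g2 * cv, g3 * (g4 * dw), hb1, hb2, mul_ne_zero hg1 haz, hb3,
      mul_ne_zero hg2 hcv, mul_ne_zero hg3 (mul_ne_zero hg4 hdw), ?_, ?_, ?_⟩
    · show b1 • _ + b2 • _ = (g1 * az) • _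
      rw [mul_smul, ← eaz, ← eg1, ← eb1, ← eb2]
      abel
    · show b2 • _ + b3 • _ = (g2 * cv) • _
      rw [mul_smul, ← ecv, ← eg2, ← eb2, ← eb3]
      abel
    · show b1 • _ + b2 • _ + b3 • _ = (g3 * (g4 * dw)) • _
      rw [mul_smul, mul_smul, ← edw, ← eg4, ← eg3, ← eb1, ← eb2, ← eb3]
      abel

end Pool.Agent.Helper58.G4
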